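import Mathlib

/-!
# Rank-one reduction for carpets fails over all non-algebraic fields and in all types `A_l`, `l ≥ 2`

The starting result of this problem is a carpet of type `A_2` over `ℚ(X)`. Here: for every `n ≥ 3`,
that is for every type `A_l` with `l = n - 1 ≥ 2`, and for every field `K` of one of the kinds

* `K` is not algebraic over its prime subfield (in positive characteristic: `K` is not locally
  finite);
* `K` has characteristic zero and contains a square root of a negative integer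

there is a carpet of type `A_l` over `K`, with all members different from zero, all of whose
rank-one subcarpets are admissible although the carpet is not admissible, in every quotient of
`SL_n(K)` by a central subgroup.

Outline. Let `R` be a domain with an absolute value, `φ : R → K` an injective homomorphism, `I` an
ideal of `R`, and `U`, `W` additive subgroups of `R` containing `I`, all of whose nonzero elements
have absolute value at least two. The members of the carpet are `φ(U)` at `(0, 1)`, `φ(W)` at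
`(1, 0)` and `φ(I)` at all other places. The rank-one subcarpets are admissible by ping-pong. If
`a b = x ^ 2 - 1` with `a ∈ U`, `b ∈ W`, `x ∈ I` then an identity in `SL_3` shows that the carpet
subgroup contains `x_{01}(φ(- y (a (1 + x ^ 2)) ^ 2))` for all `y ∈ W`. The rings are `F[X]`, `F`
the prime subfield, and `ℤ[√-d]`.
-/

set_option autoImplicit false

namespace Pool.Agent.Results.MP_23ee20_al.NonAlgebraicFields

open Matrix

universe u v w

section Definitions

variable {n : ℕ} {K : Type u} [Field K] {G : Type v} [Group G]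

/-- The roots of type `A_{n-1}` are the ordered pairs `(i, j)` with `i ≠ j` in `Fin n`. A family
`A i j` of additive subgroups of `K` is a carpet of type `A_{n-1}` if
`A i j * A j k ⊆ A i k` for distinct `i, j, k` (the diagonal members `A i i` are ignored). -/
def IsCarpet (A : Fin n → Fin n → AddSubgroup K) : Prop :=
  ∀ i j k : Fin n, i ≠ j → j ≠ k → i ≠ k → ∀ a ∈ A i j, ∀ b ∈ A j k, a * b ∈ A i k

/-- The subset `x_r(B)` of the Chevalley group `G`, where `r = (i, j)`, `B ≤ K` and
`x_r(t)` is the image in `G` of the transvection `1 + t E_{ij}` of `SL_n(K)`. -/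
def rootSet (π : SpecialLinearGroup (Fin n) K →* G) {i j : Fin n} (h : i ≠ j)
    (B : AddSubgroup K) : Set G :=
  {g | ∃ t ∈ B, g = π (SpecialLinearGroup.transvection h t)}

/-- The elementary carpet subgroup `E(A)`. -/
def carpetSubgroup (π : SpecialLinearGroup (Fin n) K →* G)
    (A : Fin n → Fin n → AddSubgroup K) : Subgroup G :=
  Subgroup.closure {g | ∃ (i j : Fin n) (h : i ≠ j), g ∈ rootSet π h (A i j)}

/-- The subgroup generated by `x_r(A_r)` and `x_{-r}(A_{-r})`, `r = (i, j)`. -/
def rankOneSubgroup (π : SpecialLinearGroup (Fin n) K →* G)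
    (A : Fin n → Fin n → AddSubgroup K) {i j : Fin n} (h : i ≠ j) : Subgroup G :=
  Subgroup.closure (rootSet π h (A i j) ∪ rootSet π h.symm (A j i))

/-- The carpet is admissible: `E(A) ∩ x_r(K) = x_r(A_r)` for every root `r`. -/
def Admissible (π : SpecialLinearGroup (Fin n) K →* G)
    (A : Fin n → Fin n → AddSubgroup K) : Prop :=
  ∀ (i j : Fin n) (h : i ≠ j),
    (carpetSubgroup π A : Set G) ∩ rootSet π h ⊤ = rootSet π h (A i j)

/-- Every rank-one subcarpet `{A_r, A_{-r}}` is admissible. -/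
def RankOneAdmissible (π : SpecialLinearGroup (Fin n) K →* G)
    (A : Fin n → Fin n → AddSubgroup K) : Prop :=
  ∀ (i j : Fin n) (h : i ≠ j),
    (rankOneSubgroup π A h : Set G) ∩ rootSet π h ⊤ = rootSet π h (A i j) ∧
    (rankOneSubgroup π A h : Set G) ∩ rootSet π h.symm ⊤ = rootSet π h.symm (A j i)

/-- Over the field `K` the reduction to Lie rank one fails in type `A_{n-1}`: there is a carpet
of type `A_{n-1}` over `K` with nonzero members such that, in every quotient `G` of `SL_n(K)` by
a central subgroup, all rank-one subcarpets are admissible and the carpet is not admissible. -/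
def ReductionFails (n : ℕ) (K : Type u) [Field K] : Prop :=
  ∃ A : Fin n → Fin n → AddSubgroup K, (∀ i j, A i j ≠ ⊥) ∧ IsCarpet A ∧
    ∀ (G : Type v) [Group G] (π : SpecialLinearGroup (Fin n) K →* G), Function.Surjective π →
      π.ker ≤ Subgroup.center (SpecialLinearGroup (Fin n) K) →
        RankOneAdmissible π A ∧ ¬ Admissible π A

/-- A field is locally finite if every finitely generated subfield is finite. -/
def LocallyFinite (K : Type u) [Field K] : Prop :=
  ∀ S : Finset K, Finite (Subfield.closure (S : Set K))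

end Definitions

section PingPong

variable {n : ℕ} {R : Type u} [CommRing R]

/-- Reduced words in `x_{ij}(U)` and `x_{ji}(W)`; the Boolean records the first letter. -/
inductive Red {i j : Fin n} (h : i ≠ j) (U W : AddSubgroup R) :
    Bool → SpecialLinearGroup (Fin n) R → Prop
  | base1 (u : R) : u ∈ U → u ≠ 0 → Red h U W true (SpecialLinearGroup.transvection h u)
  | base2 (w : R) : w ∈ W → w ≠ 0 → Red h U W false (SpecialLinearGroup.transvection h.symm w)
  | step1 (u : R) (g : SpecialLinearGroup (Fin n) R) : u ∈ U → u ≠ 0 → Red h U W false g →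
      Red h U W true (SpecialLinearGroup.transvection h u * g)
  | step2 (w : R) (g : SpecialLinearGroup (Fin n) R) : w ∈ W → w ≠ 0 → Red h U W true g →
      Red h U W false (SpecialLinearGroup.transvection h.symm w * g)

lemma tr_mul_same {i j : Fin n} (h : i ≠ j) (u : R) (g : SpecialLinearGroup (Fin n) R)
    (l : Fin n) :
    (SpecialLinearGroup.transvection h u * g) i l = g i l + u * g j l := by
  change (Matrix.transvection i j u * (g : Matrix (Fin n) (Fin n) R)) i l = _
  rw [Matrix.transvection_mul_apply_same]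

lemma tr_mul_ne {i j : Fin n} (h : i ≠ j) (u : R) (g : SpecialLinearGroup (Fin n) R)
    (m l : Fin n) (hm : m ≠ i) :
    (SpecialLinearGroup.transvection h u * g) m l = g m l := by
  change (Matrix.transvection i j u * (g : Matrix (Fin n) (Fin n) R)) m l = _
  rw [Matrix.transvection_mul_apply_of_ne _ _ _ _ hm]

lemma tr_left {i j : Fin n} {h : i ≠ j} {U W : AddSubgroup R} (u : R) (hu : u ∈ U)
    (g : SpecialLinearGroup (Fin n) R) (hg : g = 1 ∨ Red h U W true g ∨ Red h U W false g) :
    SpecialLinearGroup.transvection h u * g = 1 ∨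
      Red h U W true (SpecialLinearGroup.transvection h u * g) ∨
      Red h U W false (SpecialLinearGroup.transvection h u * g) := by
  by_cases hu0 : u = 0
  · subst hu0
    rw [SpecialLinearGroup.transvection_coeff_zero, one_mul]
    exact hg
  rcases hg with rfl | hg | hg
  · rw [mul_one]
    exact Or.inr (Or.inl (Red.base1 u hu hu0))
  · cases hg with
    | base1 u' hu' hu0' =>
      rw [← SpecialLinearGroup.transvection_add]
      by_cases h0 : u + u' = 0
      · left; rw [h0, SpecialLinearGroup.transvection_coeff_zero]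
      · exact Or.inr (Or.inl (Red.base1 _ (U.add_mem hu hu') h0))
    | step1 u' g' hu' hu0' hg' =>
      rw [← mul_assoc, ← SpecialLinearGroup.transvection_add]
      by_cases h0 : u + u' = 0
      · rw [h0, SpecialLinearGroup.transvection_coeff_zero, one_mul]
        exact Or.inr (Or.inr hg')
      · exact Or.inr (Or.inl (Red.step1 _ _ (U.add_mem hu hu') h0 hg'))
  · exact Or.inr (Or.inl (Red.step1 u g hu hu0 hg))

lemma tr_left' {i j : Fin n} {h : i ≠ j} {U W : AddSubgroup R} (w : R) (hw : w ∈ W)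
    (g : SpecialLinearGroup (Fin n) R) (hg : g = 1 ∨ Red h U W true g ∨ Red h U W false g) :
    SpecialLinearGroup.transvection h.symm w * g = 1 ∨
      Red h U W true (SpecialLinearGroup.transvection h.symm w * g) ∨
      Red h U W false (SpecialLinearGroup.transvection h.symm w * g) := by
  by_cases hw0 : w = 0
  · subst hw0
    rw [SpecialLinearGroup.transvection_coeff_zero, one_mul]
    exact hg
  rcases hg with rfl | hg | hg
  · rw [mul_one]
    exact Or.inr (Or.inr (Red.base2 w hw hw0))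
  · exact Or.inr (Or.inr (Red.step2 w g hw hw0 hg))
  · cases hg with
    | base2 w' hw' hw0' =>
      rw [← SpecialLinearGroup.transvection_add]
      by_cases h0 : w + w' = 0
      · left; rw [h0, SpecialLinearGroup.transvection_coeff_zero]
      · exact Or.inr (Or.inr (Red.base2 _ (W.add_mem hw hw') h0))
    | step2 w' g' hw' hw0' hg' =>
      rw [← mul_assoc, ← SpecialLinearGroup.transvection_add]
      by_cases h0 : w + w' = 0
      · rw [h0, SpecialLinearGroup.transvection_coeff_zero, one_mul]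
        exact Or.inr (Or.inl hg')
      · exact Or.inr (Or.inr (Red.step2 _ _ (W.add_mem hw hw') h0 hg'))

/-- Generators of the rank-one group inside `SL_n`. -/
def gens {i j : Fin n} (h : i ≠ j) (U W : AddSubgroup R) :
    Set (SpecialLinearGroup (Fin n) R) :=
  {g | ∃ t ∈ U, g = SpecialLinearGroup.transvection h t} ∪
    {g | ∃ t ∈ W, g = SpecialLinearGroup.transvection h.symm t}

lemma closure_red {i j : Fin n} (h : i ≠ j) (U W : AddSubgroup R)
    (g : SpecialLinearGroup (Fin n) R) (hg : g ∈ Subgroup.closure (gens h U W)) :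
    g = 1 ∨ Red h U W true g ∨ Red h U W false g := by
  induction hg using Subgroup.closure_induction_left with
  | one => left; rfl
  | mul_left x hx y hy ih =>
    rcases hx with ⟨t, ht, rfl⟩ | ⟨t, ht, rfl⟩
    · exact tr_left t ht y ih
    · exact tr_left' t ht y ih
  | inv_mul_cancel x hx y hy ih =>
    rcases hx with ⟨t, ht, rfl⟩ | ⟨t, ht, rfl⟩
    · rw [SpecialLinearGroup.transvection_inv]
      exact tr_left _ (U.neg_mem ht) y ih
    · rw [SpecialLinearGroup.transvection_inv]
      exact tr_left' _ (W.neg_mem ht) y ih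

/-- Elements of the rank-one group fix the other coordinates. -/
lemma closure_diag {i j : Fin n} (h : i ≠ j) (U W : AddSubgroup R) (k : Fin n) (hk1 : k ≠ i)
    (hk2 : k ≠ j) (g : SpecialLinearGroup (Fin n) R)
    (hg : g ∈ Subgroup.closure (gens h U W)) : g k k = 1 := by
  induction hg using Subgroup.closure_induction_left with
  | one => simp
  | mul_left x hx y hy ih =>
    rcases hx with ⟨t, ht, rfl⟩ | ⟨t, ht, rfl⟩
    · rw [tr_mul_ne _ _ _ _ _ hk1, ih]
    · rw [tr_mul_ne _ _ _ _ _ hk2, ih]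
  | inv_mul_cancel x hx y hy ih =>
    rcases hx with ⟨t, ht, rfl⟩ | ⟨t, ht, rfl⟩
    · rw [SpecialLinearGroup.transvection_inv, tr_mul_ne _ _ _ _ _ hk1, ih]
    · rw [SpecialLinearGroup.transvection_inv, tr_mul_ne _ _ _ _ _ hk2, ih]

lemma tr_apply {i j : Fin n} (h : i ≠ j) (t : R) :
    (SpecialLinearGroup.transvection h t : SpecialLinearGroup (Fin n) R) j i = 0 ∧
    (SpecialLinearGroup.transvection h t : SpecialLinearGroup (Fin n) R) i j = t ∧
    (SpecialLinearGroup.transvection h t : SpecialLinearGroup (Fin n) R) i i = 1 := by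
  refine ⟨?_, ?_, ?_⟩ <;>
    simp [SpecialLinearGroup.transvection_coe, h, h.symm]

/-- What a reduced word does to the first basis vector. -/
lemma red_col (f : AbsoluteValue R ℝ) {i j : Fin n} (h : i ≠ j) (U W : AddSubgroup R)
    (hU : ∀ u ∈ U, u ≠ 0 → 2 ≤ f u) (hW : ∀ w ∈ W, w ≠ 0 → 2 ≤ f w) (h1 : f 1 = 1) (b : Bool)
    (g : SpecialLinearGroup (Fin n) R) (hg : Red h U W b g) :
    (b = true → (∃ u ∈ U, g = SpecialLinearGroup.transvection h u) ∨
      (0 < f (g j i) ∧ f (g j i) < f (g i i))) ∧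
    (b = false → f (g i i) < f (g j i)) := by
  have key : ∀ p q r : R, 2 ≤ f p → f r < f q → f q < f (r + p * q) := by
    intro p q r hp hr
    have e1 : f (p * q) ≤ f (r + p * q) + f r := by
      have := f.add_le (r + p * q) (-r)
      rw [f.map_neg] at this
      have e : r + p * q + -r = p * q := by ring
      rwa [e] at this
    have e2 : 2 * f q ≤ f (p * q) := by
      rw [map_mul]
      exact mul_le_mul_of_nonneg_right hp (f.nonneg q)
    linarith
  induction hg with
  | base1 u hu hu0 =>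
    exact ⟨fun _ => Or.inl ⟨u, hu, rfl⟩, fun hb => by simp at hb⟩
  | base2 w hw hw0 =>
    refine ⟨fun hb => by simp at hb, fun _ => ?_⟩
    rw [(tr_apply h.symm w).2.1]
    have : (SpecialLinearGroup.transvection h.symm w : SpecialLinearGroup (Fin n) R) i i = 1 := by
      simp [SpecialLinearGroup.transvection_coe, h.symm]
    rw [this, h1]
    linarith [hW w hw hw0]
  | step1 u g hu hu0 hg ih =>
    refine ⟨fun _ => Or.inr ?_, fun hb => by simp at hb⟩
    rw [tr_mul_ne _ _ _ _ _ h.symm, tr_mul_same]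
    exact ⟨lt_of_le_of_lt (f.nonneg _) (ih.2 rfl),
      key u (g j i) (g i i) (hU u hu hu0) (ih.2 rfl)⟩
  | step2 w g hw hw0 hg ih =>
    refine ⟨fun hb => by simp at hb, fun _ => ?_⟩
    rw [tr_mul_ne _ _ _ _ _ h, tr_mul_same]
    rcases ih.1 rfl with ⟨u, hu, rfl⟩ | ⟨-, h2⟩
    · rw [(tr_apply h u).1, (tr_apply h u).2.2, zero_add, mul_one, h1]
      linarith [hW w hw hw0]
    · exact key w (g i i) (g j i) (hW w hw hw0) h2

/-- The rank-one group contains only the expected elements of the root subgroup. -/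
lemma rankOne_core (f : AbsoluteValue R ℝ) {i j : Fin n} (h : i ≠ j) (U W : AddSubgroup R)
    (hU : ∀ u ∈ U, u ≠ 0 → 2 ≤ f u) (hW : ∀ w ∈ W, w ≠ 0 → 2 ≤ f w) (h1 : f 1 = 1)
    (g : SpecialLinearGroup (Fin n) R) (hg : g ∈ Subgroup.closure (gens h U W))
    (h0 : g j i = 0) : g i j ∈ U := by
  rcases closure_red h U W _ hg with hr | hr | hr
  · rw [hr]
    simp [h, U.zero_mem]
  · rcases (red_col f h U W hU hW h1 _ _ hr).1 rfl with ⟨u, hu, hut⟩ | ⟨h2, -⟩
    · rw [hut, (tr_apply h u).2.1]
      exact hu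
    · rw [h0, map_zero] at h2
      exact absurd h2 (lt_irrefl _)
  · exfalso
    have := (red_col f h U W hU hW h1 _ _ hr).2 rfl
    rw [h0, map_zero] at this
    exact absurd this (not_lt.2 (f.nonneg _))

end PingPong

section Embedding

variable {n : ℕ} {R : Type u} [CommRing R]

/-- The inclusion matrix of the coordinates `e 0, e 1, e 2`. -/
def incl (R : Type u) [CommRing R] (e : Fin 3 → Fin n) : Matrix (Fin n) (Fin 3) R :=
  fun i a => if i = e a then 1 else 0

lemma incl_mul (e : Fin 3 → Fin n) (he : Function.Injective e) :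
    (incl R e)ᵀ * incl R e = 1 := by
  ext a b
  rw [Matrix.mul_apply, Finset.sum_eq_single (e a)]
  · simp only [transpose_apply, incl, Matrix.one_apply, if_true, one_mul]
    by_cases h : a = b
    · simp [h]
    · rw [if_neg (fun h' => h (he h')), if_neg h]
  · intro i _ hi
    simp [incl, hi]
  · simp

/-- Extension of a matrix of size three by the identity matrix. -/
def extend (e : Fin 3 → Fin n) (M : Matrix (Fin 3) (Fin 3) R) : Matrix (Fin n) (Fin n) R :=
  1 + incl R e * ((M - 1) * (incl R e)ᵀ)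

lemma extend_det (e : Fin 3 → Fin n) (he : Function.Injective e)
    (M : Matrix (Fin 3) (Fin 3) R) : (extend e M).det = M.det := by
  unfold extend
  rw [det_one_add_mul_comm, Matrix.mul_assoc, incl_mul e he, Matrix.mul_one, add_sub_cancel]

lemma extend_one (e : Fin 3 → Fin n) : extend e (1 : Matrix (Fin 3) (Fin 3) R) = 1 := by
  unfold extend
  rw [sub_self, Matrix.zero_mul, Matrix.mul_zero, add_zero]

lemma extend_mul (e : Fin 3 → Fin n) (he : Function.Injective e)
    (x y : Matrix (Fin 3) (Fin 3) R) : extend e (x * y) = extend e x * extend e y := by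
  unfold extend
  have hP := incl_mul (R := R) e he
  set P : Matrix (Fin n) (Fin 3) R := incl R e with hPdef
  have e1 : (P * ((x - 1) * Pᵀ)) * (P * ((y - 1) * Pᵀ)) =
      P * ((x - 1) * ((y - 1) * Pᵀ)) := by
    rw [Matrix.mul_assoc, Matrix.mul_assoc (x - 1), ← Matrix.mul_assoc Pᵀ, hP, Matrix.one_mul]
  rw [Matrix.mul_add, Matrix.add_mul, Matrix.add_mul, Matrix.one_mul, Matrix.one_mul,
    Matrix.mul_one, e1]
  have e2 : x * y - 1 = (x - 1) + (y - 1) + (x - 1) * (y - 1) := by
    rw [Matrix.mul_sub, Matrix.sub_mul, Matrix.one_mul, Matrix.mul_one]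
    abel
  rw [e2, Matrix.add_mul, Matrix.add_mul, Matrix.mul_add, Matrix.mul_add, Matrix.mul_assoc]
  abel

lemma extend_transvection (e : Fin 3 → Fin n) (i j : Fin 3) (t : R) :
    extend e (1 + Matrix.single i j t) = 1 + Matrix.single (e i) (e j) t := by
  unfold extend
  rw [add_sub_cancel_left]
  congr 1
  ext k l
  rw [Matrix.mul_apply, Finset.sum_eq_single i, Matrix.mul_apply, Finset.sum_eq_single j]
  · simp only [incl, transpose_apply, Matrix.single_apply]
    by_cases h1 : k = e i <;> by_cases h2 : l = e j <;> simp [h1, h2, eq_comm]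
  · intro a _ ha
    simp [ha.symm]
  · simp
  · intro a _ ha
    rw [Matrix.mul_apply]
    simp [ha.symm]
  · simp

/-- The embedding of `SL_3` in `SL_n` along three coordinates. -/
def emb (e : Fin 3 → Fin n) (he : Function.Injective e) :
    SpecialLinearGroup (Fin 3) R →* SpecialLinearGroup (Fin n) R where
  toFun g := ⟨extend e g.1, by rw [extend_det e he]; exact g.2⟩
  map_one' := Subtype.ext (extend_one e)
  map_mul' g h := Subtype.ext (extend_mul e he g.1 h.1)

lemma emb_transvection (e : Fin 3 → Fin n) (he : Function.Injective e) {i j : Fin 3}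
    (h : i ≠ j) (t : R) :
    emb e he (SpecialLinearGroup.transvection h t) =
      SpecialLinearGroup.transvection (fun h' => h (he h')) t :=
  Subtype.ext (extend_transvection e i j t)

end Embedding

section Identity

variable {R : Type u} [CommRing R]

/-- Short name for transvections in `SL_3`. -/
def tv (i j : Fin 3) (h : i ≠ j) (t : R) : SpecialLinearGroup (Fin 3) R :=
  SpecialLinearGroup.transvection h t

lemma h01 (t : R) : (tv 0 1 (by decide) t : Matrix (Fin 3) (Fin 3) R)
    = !![1, t, 0; 0, 1, 0; 0, 0, 1] := by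
  ext i j; fin_cases i <;> fin_cases j <;> simp [tv, SpecialLinearGroup.transvection_coe]

lemma h10 (t : R) : (tv 1 0 (by decide) t : Matrix (Fin 3) (Fin 3) R)
    = !![1, 0, 0; t, 1, 0; 0, 0, 1] := by
  ext i j; fin_cases i <;> fin_cases j <;> simp [tv, SpecialLinearGroup.transvection_coe]

lemma h20 (t : R) : (tv 2 0 (by decide) t : Matrix (Fin 3) (Fin 3) R)
    = !![1, 0, 0; 0, 1, 0; t, 0, 1] := by
  ext i j; fin_cases i <;> fin_cases j <;> simp [tv, SpecialLinearGroup.transvection_coe]

lemma h21 (t : R) : (tv 2 1 (by decide) t : Matrix (Fin 3) (Fin 3) R)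
    = !![1, 0, 0; 0, 1, 0; 0, t, 1] := by
  ext i j; fin_cases i <;> fin_cases j <;> simp [tv, SpecialLinearGroup.transvection_coe]

lemma h12 (t : R) : (tv 1 2 (by decide) t : Matrix (Fin 3) (Fin 3) R)
    = !![1, 0, 0; 0, 1, t; 0, 0, 1] := by
  ext i j; fin_cases i <;> fin_cases j <;> simp [tv, SpecialLinearGroup.transvection_coe]

/-- The element `w = x_{01}(a) x_{10}(b) x_{01}(a)`. -/
def w (a b : R) : SpecialLinearGroup (Fin 3) R :=
  tv 0 1 (by decide) a * tv 1 0 (by decide) b * tv 0 1 (by decide) a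

lemma w_coe (a b x : R) (hab : a * b = x ^ 2 - 1) : (w a b : Matrix (Fin 3) (Fin 3) R)
    = !![x ^ 2, a * (1 + x ^ 2), 0; b, x ^ 2, 0; 0, 0, 1] := by
  unfold w
  rw [Matrix.SpecialLinearGroup.coe_mul, Matrix.SpecialLinearGroup.coe_mul, h01, h10]
  ext i j
  fin_cases i <;> fin_cases j <;>
    simp [Matrix.mul_apply, Fin.sum_univ_three]
  · linear_combination hab
  · linear_combination a * hab
  · linear_combination hab

/-- The element `t = x_{12}(-x) x_{20}(-bx) x_{21}(x^3)`. -/
def tt (b x : R) : SpecialLinearGroup (Fin 3) R :=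
  tv 1 2 (by decide) (-x) * (tv 2 0 (by decide) (-(b * x)) * tv 2 1 (by decide) (x * x ^ 2))

lemma tt_coe (b x : R) : (tt b x : Matrix (Fin 3) (Fin 3) R)
    = !![1, 0, 0; b * x ^ 2, 1 - x ^ 4, -x; -(b * x), x ^ 3, 1] := by
  unfold tt
  rw [Matrix.SpecialLinearGroup.coe_mul, Matrix.SpecialLinearGroup.coe_mul, h12, h20, h21]
  ext i j
  fin_cases i <;> fin_cases j <;>
    simp [Matrix.mul_apply, Fin.sum_univ_three] <;> ring

lemma ttw_coe (a b x : R) (hab : a * b = x ^ 2 - 1) :
    ((tt b x * w a b : SpecialLinearGroup (Fin 3) R) : Matrix (Fin 3) (Fin 3) R)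
    = !![x ^ 2, a * (1 + x ^ 2), 0; b, 0, -x; 0, x, 1] := by
  rw [Matrix.SpecialLinearGroup.coe_mul, tt_coe, w_coe a b x hab]
  ext i j
  fin_cases i <;> fin_cases j <;>
    simp [Matrix.mul_apply, Fin.sum_univ_three]
  · ring
  · linear_combination (x ^ 2 * (1 + x ^ 2)) * hab
  · ring
  · linear_combination (- x * (1 + x ^ 2)) * hab

/-- The commutator `[x_{01}(p) x_{21}(x), x_{10}(βx^2) x_{12}(-βxp)]`. -/
def LL (p x β : R) : SpecialLinearGroup (Fin 3) R :=
  (tv 0 1 (by decide) p * tv 2 1 (by decide) x) *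
  (tv 1 0 (by decide) (β * x ^ 2) * tv 1 2 (by decide) (-(β * x * p))) *
  ((tv 0 1 (by decide) (-p) * tv 2 1 (by decide) (-x)) *
  (tv 1 0 (by decide) (-(β * x ^ 2)) * tv 1 2 (by decide) (β * x * p)))

lemma half_coe (p x y z : R) :
    (((tv 0 1 (by decide) p * tv 2 1 (by decide) x) *
      (tv 1 0 (by decide) y * tv 1 2 (by decide) z) : SpecialLinearGroup (Fin 3) R) :
        Matrix (Fin 3) (Fin 3) R)
    = !![1 + p * y, p, p * z; y, 1, z; x * y, x, 1 + x * z] := by
  rw [Matrix.SpecialLinearGroup.coe_mul, Matrix.SpecialLinearGroup.coe_mul,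
    Matrix.SpecialLinearGroup.coe_mul, h01, h21, h10, h12]
  ext i j
  fin_cases i <;> fin_cases j <;>
    simp [Matrix.mul_apply, Fin.sum_univ_three]
  ring

lemma LL_coe (p x β : R) : (LL p x β : Matrix (Fin 3) (Fin 3) R)
    = !![1 + β * x ^ 2 * p, 0, -(β * x * p ^ 2); 0, 1, 0; β * x ^ 3, 0, 1 - β * x ^ 2 * p] := by
  unfold LL
  rw [Matrix.SpecialLinearGroup.coe_mul, half_coe, half_coe]
  ext i j
  fin_cases i <;> fin_cases j <;>
    simp [Matrix.mul_apply, Fin.sum_univ_three] <;> ring

lemma main_identity (a b x β : R) (hab : a * b = x ^ 2 - 1) :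
    tv 0 1 (by decide) (-(β * (a * (1 + x ^ 2)) ^ 2)) *
    (tv 2 1 (by decide) (-(β * x * (a * (1 + x ^ 2)))) * LL (a * (1 + x ^ 2)) x β) *
    (tt b x * w a b) = (tt b x * w a b) * tv 1 0 (by decide) β := by
  apply Subtype.ext
  rw [Matrix.SpecialLinearGroup.coe_mul, Matrix.SpecialLinearGroup.coe_mul,
    Matrix.SpecialLinearGroup.coe_mul, Matrix.SpecialLinearGroup.coe_mul _ (tv _ _ _ _),
    ttw_coe a b x hab, LL_coe, h01, h21, h10]
  ext i j
  fin_cases i <;> fin_cases j <;>
    simp [Matrix.mul_apply, Fin.sum_univ_three]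
  · linear_combination (-(β * (a * (1 + x ^ 2)) * (1 + x ^ 2))) * hab
  · ring
  · ring
  · linear_combination (-(β * x * (1 + x ^ 2))) * hab
  · ring
  · ring

end Identity

section Construction

variable {n : ℕ} {R : Type w} [CommRing R] {K : Type u} [Field K] {G : Type v} [Group G]

lemma map_transvection (φ : R →+* K) {i j : Fin n} (h : i ≠ j) (t : R) :
    SpecialLinearGroup.map φ (SpecialLinearGroup.transvection h t) =
      SpecialLinearGroup.transvection h (φ t) := by
  ext k l
  rw [SpecialLinearGroup.map_apply_coe]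
  simp only [SpecialLinearGroup.transvection_coe, RingHom.mapMatrix_apply, Matrix.map_apply,
    Matrix.add_apply, Matrix.one_apply, Matrix.single_apply, map_add]
  split_ifs <;> simp

/-- The members of the carpet, as subgroups of the ring `R`. -/
def member (U W : AddSubgroup R) (I : Ideal R) (i j : Fin n) : AddSubgroup R :=
  if (i : ℕ) = 0 ∧ (j : ℕ) = 1 then U else if (i : ℕ) = 1 ∧ (j : ℕ) = 0 then W
    else Submodule.toAddSubgroup I

/-- The carpet over `K`. -/
def carpet (φ : R →+* K) (U W : AddSubgroup R) (I : Ideal R) (i j : Fin n) : AddSubgroup K :=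
  (member U W I i j).map (φ : R →+ K)

lemma mem_carpet (φ : R →+* K) (U W : AddSubgroup R) (I : Ideal R) (i j : Fin n) (t : K) :
    t ∈ carpet φ U W I i j ↔ ∃ f ∈ member U W I i j, φ f = t := Iff.rfl

lemma member_of_ideal {U W : AddSubgroup R} {I : Ideal R} (hIU : ∀ z ∈ I, z ∈ U)
    (hIW : ∀ z ∈ I, z ∈ W) (i j : Fin n) (z : R) (hz : z ∈ I) : z ∈ member U W I i j := by
  unfold member
  split_ifs
  · exact hIU z hz
  · exact hIW z hz
  · exact hz

lemma member_mul {U W : AddSubgroup R} {I : Ideal R} (hIU : ∀ z ∈ I, z ∈ U)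
    (hIW : ∀ z ∈ I, z ∈ W) (i j k : Fin n) (hij : i ≠ j) (hjk : j ≠ k) (hik : i ≠ k)
    (y z : R) (hy : y ∈ member U W I i j) (hz : z ∈ member U W I j k) :
    y * z ∈ member U W I i k := by
  apply member_of_ideal hIU hIW
  have h1 : (i : ℕ) ≠ j := fun h => hij (Fin.ext h)
  have h2 : (j : ℕ) ≠ k := fun h => hjk (Fin.ext h)
  have h3 : (i : ℕ) ≠ k := fun h => hik (Fin.ext h)
  unfold member at hy hz
  split_ifs at hy with c1 c2
  · split_ifs at hz with c3 c4
    · omega
    · omega
    · exact I.mul_mem_left _ hz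
  · split_ifs at hz with c3 c4
    · omega
    · omega
    · exact I.mul_mem_left _ hz
  · exact I.mul_mem_right _ hy

lemma carpet_isCarpet (φ : R →+* K) {U W : AddSubgroup R} {I : Ideal R}
    (hIU : ∀ z ∈ I, z ∈ U) (hIW : ∀ z ∈ I, z ∈ W) :
    IsCarpet (n := n) (carpet φ U W I) := by
  intro i j k hij hjk hik a ha b hb
  obtain ⟨f, hf, rfl⟩ := (mem_carpet φ U W I i j a).mp ha
  obtain ⟨g, hg, rfl⟩ := (mem_carpet φ U W I j k b).mp hb
  exact (mem_carpet φ U W I i k _).mpr
    ⟨f * g, member_mul hIU hIW i j k hij hjk hik f g hf hg, map_mul _ _ _⟩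

lemma image_rootSet (φ : R →+* K) (π : SpecialLinearGroup (Fin n) K →* G) {i j : Fin n}
    (h : i ≠ j) (B : AddSubgroup R) :
    (π.comp (SpecialLinearGroup.map φ)) '' {g | ∃ t ∈ B, g = SpecialLinearGroup.transvection h t}
      = rootSet π h (B.map (φ : R →+ K)) := by
  ext g
  constructor
  · rintro ⟨_, ⟨t, ht, rfl⟩, rfl⟩
    refine ⟨φ t, ⟨t, ht, rfl⟩, ?_⟩
    rw [MonoidHom.comp_apply, map_transvection]
  · rintro ⟨_, ⟨t, ht, rfl⟩, rfl⟩
    refine ⟨_, ⟨t, ht, rfl⟩, ?_⟩
    rw [MonoidHom.comp_apply, map_transvection]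
    rfl

lemma rankOneSubgroup_eq (φ : R →+* K) (π : SpecialLinearGroup (Fin n) K →* G)
    (U W : AddSubgroup R) (I : Ideal R) {i j : Fin n} (h : i ≠ j) :
    rankOneSubgroup π (carpet φ U W I) h =
      (Subgroup.closure (gens h (member U W I i j) (member U W I j i))).map
        (π.comp (SpecialLinearGroup.map φ)) := by
  unfold rankOneSubgroup gens carpet
  rw [MonoidHom.map_closure, Set.image_union, image_rootSet, image_rootSet]

lemma rankOneSubgroup_symm (π : SpecialLinearGroup (Fin n) K →* G)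
    (A : Fin n → Fin n → AddSubgroup K) {i j : Fin n} (h : i ≠ j) :
    rankOneSubgroup π A h = rankOneSubgroup π A h.symm := by
  unfold rankOneSubgroup
  rw [Set.union_comm]

lemma third_index (hn : 3 ≤ n) (i j : Fin n) : ∃ k : Fin n, k ≠ i ∧ k ≠ j := by
  have : ∃ m : ℕ, m < 3 ∧ m ≠ (i : ℕ) ∧ m ≠ (j : ℕ) := by
    by_contra H
    push Not at H
    have h0 := H 0 (by norm_num)
    have h1 := H 1 (by norm_num)
    have h2 := H 2 (by norm_num)
    omega
  obtain ⟨m, hm, h1, h2⟩ := this
  exact ⟨⟨m, by omega⟩, fun h => h1 (by rw [← h]), fun h => h2 (by rw [← h])⟩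

lemma rankOne_transfer (hn : 3 ≤ n) (φ : R →+* K) (π : SpecialLinearGroup (Fin n) K →* G)
    (hπ : π.ker ≤ Subgroup.center (SpecialLinearGroup (Fin n) K))
    {i j : Fin n} (h : i ≠ j) (U W : AddSubgroup R) (t : K)
    (ht : π (SpecialLinearGroup.transvection h t) ∈
      (Subgroup.closure (gens h U W)).map (π.comp (SpecialLinearGroup.map φ))) :
    ∃ g ∈ Subgroup.closure (gens h U W),
      SpecialLinearGroup.map φ g = SpecialLinearGroup.transvection h t := by
  obtain ⟨g, hg, hgt⟩ := ht
  rw [MonoidHom.comp_apply] at hgt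
  refine ⟨g, hg, ?_⟩
  set γ := SpecialLinearGroup.map φ g with hγ
  have hz : γ⁻¹ * SpecialLinearGroup.transvection h t ∈ π.ker := by
    rw [MonoidHom.mem_ker, map_mul, map_inv, hgt, inv_mul_cancel]
  obtain ⟨r, _, hr⟩ := Matrix.SpecialLinearGroup.mem_center_iff.mp (hπ hz)
  obtain ⟨k, hk1, hk2⟩ := third_index hn i j
  have hgk : γ k k = 1 := by
    rw [hγ, SpecialLinearGroup.map_apply_coe, RingHom.mapMatrix_apply, Matrix.map_apply,
      closure_diag h U W k hk1 hk2 g hg, map_one]
  have e1 : (SpecialLinearGroup.transvection h t : SpecialLinearGroup (Fin n) K)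
      = γ * (γ⁻¹ * SpecialLinearGroup.transvection h t) := by
    rw [mul_inv_cancel_left]
  have e2 : ((γ * (γ⁻¹ * SpecialLinearGroup.transvection h t) :
      SpecialLinearGroup (Fin n) K) : Matrix (Fin n) (Fin n) K) k k = γ k k * r := by
    rw [Matrix.SpecialLinearGroup.coe_mul, ← hr, Matrix.mul_apply]
    rw [Finset.sum_eq_single k]
    · simp
    · intro b _ hb
      simp [Matrix.scalar_apply, hb]
    · simp
  have e3 : ((SpecialLinearGroup.transvection h t : SpecialLinearGroup (Fin n) K) :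
      Matrix (Fin n) (Fin n) K) k k = 1 := by
    rw [SpecialLinearGroup.transvection_coe]
    simp [Matrix.single, hk1.symm]
  rw [← e1, e3, hgk, one_mul] at e2
  have e4 : (γ⁻¹ * SpecialLinearGroup.transvection h t : SpecialLinearGroup (Fin n) K) = 1 := by
    apply Subtype.ext
    rw [← hr, ← e2]
    simp
  rw [e1, e4, mul_one]

lemma carpet_rankOne (hn : 3 ≤ n) (φ : R →+* K) (hφ : Function.Injective φ)
    (f : AbsoluteValue R ℝ) (h1 : f 1 = 1) {U W : AddSubgroup R} {I : Ideal R}
    (hIU : ∀ z ∈ I, z ∈ U) (hU : ∀ u ∈ U, u ≠ 0 → 2 ≤ f u) (hW : ∀ u ∈ W, u ≠ 0 → 2 ≤ f u)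
    (π : SpecialLinearGroup (Fin n) K →* G)
    (hπ : π.ker ≤ Subgroup.center (SpecialLinearGroup (Fin n) K)) {i j : Fin n} (h : i ≠ j) :
    (rankOneSubgroup π (carpet φ U W I) h : Set G) ∩ rootSet π h ⊤ =
      rootSet π h (carpet φ U W I i j) := by
  have hbig : ∀ (i j : Fin n), ∀ u ∈ member U W I i j, u ≠ 0 → 2 ≤ f u := by
    intro i j u hu hu0
    unfold member at hu
    split_ifs at hu
    · exact hU u hu hu0
    · exact hW u hu hu0
    · exact hU u (hIU u hu) hu0
  ext g
  constructor
  · rintro ⟨hg, t, -, rfl⟩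
    refine ⟨t, ?_, rfl⟩
    rw [SetLike.mem_coe, rankOneSubgroup_eq] at hg
    obtain ⟨g, hg, hgt⟩ := rankOne_transfer hn φ π hπ h _ _ t hg
    have hij : φ (g i j) = t := by
      have := congrArg (fun m : SpecialLinearGroup (Fin n) K => m i j) hgt
      simp only [(tr_apply h t).2.1] at this
      rw [SpecialLinearGroup.map_apply_coe, RingHom.mapMatrix_apply, Matrix.map_apply] at this
      exact this
    have hji : g j i = 0 := by
      have := congrArg (fun m : SpecialLinearGroup (Fin n) K => m j i) hgt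
      simp only [(tr_apply h t).1] at this
      rw [SpecialLinearGroup.map_apply_coe, RingHom.mapMatrix_apply, Matrix.map_apply] at this
      exact hφ (by rw [this, map_zero])
    rw [mem_carpet]
    exact ⟨g i j, rankOne_core f h _ _ (hbig i j) (hbig j i) h1 g hg hji, hij⟩
  · rintro ⟨t, ht, rfl⟩
    exact ⟨Subgroup.subset_closure (Or.inl ⟨t, ht, rfl⟩), t, AddSubgroup.mem_top t, rfl⟩

/-- The coordinates `0, 1, 2` of `Fin n`. -/
def coord (hn : 3 ≤ n) : Fin 3 → Fin n := Fin.castLE hn

lemma coord_inj (hn : 3 ≤ n) : Function.Injective (coord hn) := Fin.castLE_injective hn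

/-- The homomorphism `SL_3(R) → SL_n(K) → G`. -/
def toG (hn : 3 ≤ n) (φ : R →+* K) (π : SpecialLinearGroup (Fin n) K →* G) :
    SpecialLinearGroup (Fin 3) R →* G :=
  (π.comp (SpecialLinearGroup.map φ)).comp (emb (coord hn) (coord_inj hn))

lemma toG_tv (hn : 3 ≤ n) (φ : R →+* K) (π : SpecialLinearGroup (Fin n) K →* G) (i j : Fin 3)
    (h : i ≠ j) (t : R) :
    toG hn φ π (tv i j h t) = π (SpecialLinearGroup.transvection
      (fun h' => h (coord_inj hn h') : coord hn i ≠ coord hn j) (φ t)) := by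
  unfold toG tv
  rw [MonoidHom.comp_apply, emb_transvection, MonoidHom.comp_apply, map_transvection]

lemma gen_mem (hn : 3 ≤ n) (φ : R →+* K) (π : SpecialLinearGroup (Fin n) K →* G)
    (U W : AddSubgroup R) (I : Ideal R) (i j : Fin 3) (h : i ≠ j) (t : R)
    (ht : t ∈ member U W I (coord hn i) (coord hn j)) :
    tv i j h t ∈ (carpetSubgroup π (carpet φ U W I)).comap (toG hn φ π) := by
  rw [Subgroup.mem_comap, toG_tv]
  exact Subgroup.subset_closure ⟨coord hn i, coord hn j, fun h' => h (coord_inj hn h'), φ t,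
    (mem_carpet φ U W I _ _ _).mpr ⟨t, ht, rfl⟩, rfl⟩

lemma c_mem (hn : 3 ≤ n) (φ : R →+* K) (π : SpecialLinearGroup (Fin n) K →* G)
    {U W : AddSubgroup R} {I : Ideal R} (hIU : ∀ z ∈ I, z ∈ U) (hIW : ∀ z ∈ I, z ∈ W)
    (a b x y : R) (ha : a ∈ U) (hb : b ∈ W) (hy : y ∈ W) (hx : x ∈ I)
    (hab : a * b = x ^ 2 - 1) :
    tv 0 1 (by decide) (-(y * (a * (1 + x ^ 2)) ^ 2)) ∈
      (carpetSubgroup π (carpet φ U W I)).comap (toG hn φ π) := by
  set S := (carpetSubgroup π (carpet φ U W I)).comap (toG hn φ π) with hS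
  have hUm : ∀ t ∈ U, tv 0 1 (by decide) t ∈ S := by
    intro t ht
    apply gen_mem
    have : member U W I (coord hn 0) (coord hn 1) = U := by simp [member, coord]
    rw [this]
    exact ht
  have hWm : ∀ t ∈ W, tv 1 0 (by decide) t ∈ S := by
    intro t ht
    apply gen_mem
    have : member U W I (coord hn 1) (coord hn 0) = W := by simp [member, coord]
    rw [this]
    exact ht
  have hIm : ∀ (i j : Fin 3) (h : i ≠ j), ∀ t ∈ I, tv i j h t ∈ S := by
    intro i j h t ht
    exact gen_mem hn φ π U W I i j h t (member_of_ideal hIU hIW _ _ t ht)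
  have hid := main_identity a b x y hab
  have hw : w a b ∈ S := S.mul_mem (S.mul_mem (hUm a ha) (hWm b hb)) (hUm a ha)
  have htt : tt b x ∈ S := by
    refine S.mul_mem ?_ (S.mul_mem ?_ ?_)
    · exact hIm _ _ _ _ (I.neg_mem hx)
    · exact hIm _ _ _ _ (I.neg_mem (I.mul_mem_left _ hx))
    · exact hIm _ _ _ _ (I.mul_mem_right _ hx)
  have hp : a * (1 + x ^ 2) ∈ U := by
    have e : a * (1 + x ^ 2) = a + (a * x) * x := by ring
    rw [e]
    exact U.add_mem ha (hIU _ (I.mul_mem_left _ hx))
  have hLL : LL (a * (1 + x ^ 2)) x y ∈ S := by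
    have e1 : y * x ^ 2 = (y * x) * x := by ring
    have e2 : y * x * (a * (1 + x ^ 2)) = (y * (a * (1 + x ^ 2))) * x := by ring
    refine S.mul_mem (S.mul_mem (S.mul_mem ?_ ?_) (S.mul_mem ?_ ?_))
      (S.mul_mem (S.mul_mem ?_ ?_) (S.mul_mem ?_ ?_))
    · exact hUm _ hp
    · exact hIm _ _ _ _ hx
    · rw [e1]
      exact hIm _ _ _ _ (I.mul_mem_left _ hx)
    · rw [e2]
      exact hIm _ _ _ _ (I.neg_mem (I.mul_mem_left _ hx))
    · exact hUm _ (U.neg_mem hp)
    · exact hIm _ _ _ _ (I.neg_mem hx)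
    · rw [e1]
      exact hIm _ _ _ _ (I.neg_mem (I.mul_mem_left _ hx))
    · rw [e2]
      exact hIm _ _ _ _ (I.mul_mem_left _ hx)
  have h21 : tv 2 1 (by decide) (-(y * x * (a * (1 + x ^ 2)))) ∈ S := by
    have e2 : y * x * (a * (1 + x ^ 2)) = (y * (a * (1 + x ^ 2))) * x := by ring
    rw [e2]
    exact hIm _ _ _ _ (I.neg_mem (I.mul_mem_left _ hx))
  have hT := S.mul_mem htt hw
  have hR := S.mul_mem h21 hLL
  have hfin : tv 0 1 (by decide) (-(y * (a * (1 + x ^ 2)) ^ 2)) =
      (tt b x * w a b) * tv 1 0 (by decide) y * (tt b x * w a b)⁻¹ *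
      (tv 2 1 (by decide) (-(y * x * (a * (1 + x ^ 2)))) * LL (a * (1 + x ^ 2)) x y)⁻¹ := by
    rw [eq_mul_inv_iff_mul_eq, eq_mul_inv_iff_mul_eq]
    exact hid
  rw [hfin]
  exact S.mul_mem (S.mul_mem (S.mul_mem hT (hWm y hy)) (S.inv_mem hT)) (S.inv_mem hR)

/-- The general construction. -/
theorem reduction_fails (hn : 3 ≤ n) (φ : R →+* K) (hφ : Function.Injective φ)
    (f : AbsoluteValue R ℝ) (h1 : f 1 = 1) (U W : AddSubgroup R) (I : Ideal R)
    (hIU : ∀ z ∈ I, z ∈ U) (hIW : ∀ z ∈ I, z ∈ W)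
    (hU : ∀ u ∈ U, u ≠ 0 → 2 ≤ f u) (hW : ∀ u ∈ W, u ≠ 0 → 2 ≤ f u)
    (a b x y : R) (ha : a ∈ U) (hb : b ∈ W) (hy : y ∈ W) (hx : x ∈ I) (hx0 : x ≠ 0)
    (hab : a * b = x ^ 2 - 1) (hc : -(y * (a * (1 + x ^ 2)) ^ 2) ∉ U) :
    ReductionFails.{u, v} n K := by
  refine ⟨carpet φ U W I, ?_, carpet_isCarpet φ hIU hIW, ?_⟩
  · intro i j h
    have h2 : φ x ∈ carpet φ U W I i j :=
      (mem_carpet _ _ _ _ _ _ _).mpr ⟨x, member_of_ideal hIU hIW i j x hx, rfl⟩
    rw [h, AddSubgroup.mem_bot] at h2
    exact hx0 (hφ (by rw [h2, map_zero]))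
  · intro G _ π _ hπ
    refine ⟨fun i j h => ⟨carpet_rankOne hn φ hφ f h1 hIU hU hW π hπ h, ?_⟩, ?_⟩
    · rw [rankOneSubgroup_symm]
      exact carpet_rankOne hn φ hφ f h1 hIU hU hW π hπ h.symm
    · intro hadm
      have h2 := c_mem hn φ π hIU hIW a b x y ha hb hy hx hab
      rw [Subgroup.mem_comap, toG_tv] at h2
      have h01 : coord hn 0 ≠ coord hn 1 := fun h' => by
        have := coord_inj hn h'
        exact absurd this (by decide)
      have h3 : π (SpecialLinearGroup.transvection h01 (φ (-(y * (a * (1 + x ^ 2)) ^ 2)))) ∈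
          (carpetSubgroup π (carpet φ U W I) : Set G) ∩ rootSet π h01 ⊤ :=
        ⟨h2, _, AddSubgroup.mem_top _, rfl⟩
      rw [hadm _ _ h01] at h3
      obtain ⟨t, ht, htc⟩ := h3
      obtain ⟨z, hz, rfl⟩ := (mem_carpet φ U W I _ _ t).mp ht
      have h4 : SpecialLinearGroup.transvection h01
          (φ (-(y * (a * (1 + x ^ 2)) ^ 2)) + -(φ z)) ∈ π.ker := by
        rw [MonoidHom.mem_ker, SpecialLinearGroup.transvection_add,
          ← SpecialLinearGroup.transvection_inv, map_mul, map_inv, htc, mul_inv_cancel]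
      have h5 := (SpecialLinearGroup.transvection_mem_center_iff _ _).mp (hπ h4)
      rw [← sub_eq_add_neg, sub_eq_zero] at h5
      have h6 := hφ h5
      apply hc
      rw [h6]
      have h7 : member U W I (coord hn 0) (coord hn 1) = U := by simp [member, coord]
      rwa [h7] at hz

end Construction

section PolynomialRing

open Polynomial

variable {F : Type u} [Field F]

open scoped Classical in
/-- The absolute value `2 ^ deg` on polynomials. -/
noncomputable def degAbs (F : Type u) [Field F] : AbsoluteValue F[X] ℝ where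
  toFun f := if f = 0 then 0 else 2 ^ f.natDegree
  map_mul' f g := by
    by_cases hf : f = 0
    · simp [hf]
    · by_cases hg : g = 0
      · simp [hg]
      · simp only [hf, hg, mul_eq_zero, or_self, if_false]
        rw [natDegree_mul hf hg, pow_add]
  nonneg' f := by
    split_ifs
    · exact le_refl _
    · positivity
  eq_zero' f := by
    split_ifs with h
    · simp [h]
    · constructor
      · intro h'
        exact absurd h' (by positivity)
      · intro h'
        exact absurd h' h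
  add_le' f g := by
    by_cases hf : f = 0
    · simp [hf]
    · by_cases hg : g = 0
      · simp [hg]
      · by_cases hfg : f + g = 0
        · simp only [hf, hg, hfg, if_true, if_false]
          positivity
        · simp only [hf, hg, hfg, if_false]
          have h1 := natDegree_add_le f g
          rcases le_total f.natDegree g.natDegree with h | h
          · have h2 : (f + g).natDegree ≤ g.natDegree := by
              rw [max_eq_right h] at h1
              exact h1
            have h3 : (2 : ℝ) ^ (f + g).natDegree ≤ 2 ^ g.natDegree :=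
              pow_le_pow_right₀ (by norm_num) h2
            have h4 : (0 : ℝ) ≤ 2 ^ f.natDegree := by positivity
            linarith
          · have h2 : (f + g).natDegree ≤ f.natDegree := by
              rw [max_eq_left h] at h1
              exact h1
            have h3 : (2 : ℝ) ^ (f + g).natDegree ≤ 2 ^ f.natDegree :=
              pow_le_pow_right₀ (by norm_num) h2
            have h4 : (0 : ℝ) ≤ 2 ^ g.natDegree := by positivity
            linarith

open scoped Classical in
lemma degAbs_apply (f : F[X]) : degAbs F f = if f = 0 then 0 else 2 ^ f.natDegree := rfl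

lemma degAbs_ge (f : F[X]) (hf : f ≠ 0) (h : 1 ≤ f.natDegree) : 2 ≤ degAbs F f := by
  rw [degAbs_apply, if_neg hf]
  calc (2 : ℝ) = 2 ^ 1 := by norm_num
    _ ≤ 2 ^ f.natDegree := pow_le_pow_right₀ (by norm_num) h

/-- Polynomials congruent to a multiple of `1 + X` modulo `X ^ 3`. -/
def polyU (F : Type u) [Field F] : AddSubgroup F[X] where
  carrier := {f | f.coeff 0 = f.coeff 1 ∧ f.coeff 2 = 0}
  zero_mem' := by simp
  add_mem' := by
    rintro f g ⟨h1, h2⟩ ⟨h3, h4⟩
    simp only [Set.mem_ofPred_eq, coeff_add]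
    rw [h1, h2, h3, h4]
    simp
  neg_mem' := by
    rintro f ⟨h1, h2⟩
    simp only [Set.mem_ofPred_eq, coeff_neg]
    rw [h1, h2]
    simp

/-- Polynomials congruent to a combination of `1 - X + X ^ 2` and `X` modulo `X ^ 3`. -/
def polyW (F : Type u) [Field F] : AddSubgroup F[X] where
  carrier := {f | f.coeff 0 = f.coeff 2}
  zero_mem' := by simp
  add_mem' := by
    intro f g h1 h2
    simp only [Set.mem_ofPred_eq, coeff_add] at *
    rw [h1, h2]
  neg_mem' := by
    intro f h1
    simp only [Set.mem_ofPred_eq, coeff_neg] at *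
    rw [h1]

lemma mem_polyU (f : F[X]) : f ∈ polyU F ↔ f.coeff 0 = f.coeff 1 ∧ f.coeff 2 = 0 := Iff.rfl

lemma mem_polyW (f : F[X]) : f ∈ polyW F ↔ f.coeff 0 = f.coeff 2 := Iff.rfl

theorem fails_of_transcendental {n : ℕ} (hn : 3 ≤ n) {K : Type u} [Field K] [Algebra F K]
    (t : K) (ht : Transcendental F t) : ReductionFails.{u, v} n K := by
  have hφ : Function.Injective ((aeval t : F[X] →ₐ[F] K) : F[X] →+* K) :=
    transcendental_iff_injective.mp ht
  have hI : ∀ z ∈ Ideal.span {(X : F[X]) ^ 3}, z.coeff 0 = 0 ∧ z.coeff 1 = 0 ∧ z.coeff 2 = 0 := by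
    intro z hz
    rw [Ideal.mem_span_singleton, X_pow_dvd_iff] at hz
    exact ⟨hz 0 (by norm_num), hz 1 (by norm_num), hz 2 (by norm_num)⟩
  refine reduction_fails hn ((aeval t : F[X] →ₐ[F] K) : F[X] →+* K) hφ (degAbs F) ?_
    (polyU F) (polyW F) (Ideal.span {X ^ 3}) ?_ ?_ ?_ ?_ (1 + X)
    (X ^ 5 - X ^ 4 + X ^ 3 - X ^ 2 + X - 1) (X ^ 3) X ?_ ?_ ?_ ?_ ?_ ?_ ?_
  · rw [degAbs_apply, if_neg one_ne_zero, natDegree_one, pow_zero]
  · intro z hz
    obtain ⟨h0, h1, h2⟩ := hI z hz
    rw [mem_polyU, h0, h1, h2]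
    simp
  · intro z hz
    obtain ⟨h0, h1, h2⟩ := hI z hz
    rw [mem_polyW, h0, h2]
  · intro u hu hu0
    rw [mem_polyU] at hu
    refine degAbs_ge u hu0 ?_
    by_contra hlt
    have hd : u.natDegree = 0 := by omega
    have h1 : u.coeff 1 = 0 := coeff_eq_zero_of_natDegree_lt (by omega)
    apply hu0
    rw [eq_C_of_natDegree_eq_zero hd, hu.1, h1, C_0]
  · intro u hu hu0
    rw [mem_polyW] at hu
    refine degAbs_ge u hu0 ?_
    by_contra hlt
    have hd : u.natDegree = 0 := by omega
    have h1 : u.coeff 2 = 0 := coeff_eq_zero_of_natDegree_lt (by omega)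
    apply hu0
    rw [eq_C_of_natDegree_eq_zero hd, hu, h1, C_0]
  · rw [mem_polyU]
    simp [coeff_one, coeff_X]
  · rw [mem_polyW]
    simp [coeff_one, coeff_X, coeff_X_pow]
  · rw [mem_polyW]
    simp [coeff_X]
  · exact Ideal.subset_span rfl
  · exact pow_ne_zero _ X_ne_zero
  · ring
  · intro h
    rw [mem_polyU] at h
    have h1 := h.1
    rw [coeff_neg, coeff_neg, coeff_X_mul_zero, show (1 : ℕ) = 0 + 1 from rfl, coeff_X_mul] at h1
    simp [coeff_zero_eq_eval_zero] at h1

end PolynomialRing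

section QuadraticRing

/-- The key estimate for the norm form. -/
lemma norm_bound (d p q : ℤ) (hd : 1 ≤ d) (h : 6 * d + 1 ∣ q - 2 * p ∨ 6 * d + 1 ∣ q + 2 * p)
    (h0 : ¬ (p = 0 ∧ q = 0)) : 4 ≤ p ^ 2 + d * q ^ 2 := by
  by_contra hlt
  push Not at hlt
  have hq : q ^ 2 ≤ d * q ^ 2 := le_mul_of_one_le_left (sq_nonneg q) hd
  have hp1 : p ≤ 1 := by nlinarith [sq_nonneg q]
  have hp2 : -1 ≤ p := by nlinarith [sq_nonneg q]
  have hq1 : q ≤ 1 := by nlinarith [sq_nonneg p]
  have hq2 : -1 ≤ q := by nlinarith [sq_nonneg p]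
  rcases h with h | h
  · have : q - 2 * p = 0 := Int.eq_zero_of_abs_lt_dvd h (by rw [abs_lt]; constructor <;> omega)
    omega
  · have : q + 2 * p = 0 := Int.eq_zero_of_abs_lt_dvd h (by rw [abs_lt]; constructor <;> omega)
    omega

/-- The embedding of `ℤ[√-d]` in the complex numbers. -/
noncomputable def toC (d : ℕ) : ℤ√(-(d : ℤ)) →+* ℂ :=
  Zsqrtd.lift ⟨Real.sqrt d * Complex.I, by
    have h : ((Real.sqrt d : ℝ) : ℂ) * (Real.sqrt d : ℝ) = (d : ℂ) := by
      rw [← Complex.ofReal_mul, Real.mul_self_sqrt (Nat.cast_nonneg d)]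
      simp
    have : (Real.sqrt d : ℂ) * Complex.I * (Real.sqrt d * Complex.I) =
        (Real.sqrt d : ℂ) * Real.sqrt d * (Complex.I * Complex.I) := by ring
    rw [this, h, Complex.I_mul_I]
    push_cast
    ring⟩

lemma toC_norm (d : ℕ) (z : ℤ√(-(d : ℤ))) :
    ‖toC d z‖ ^ 2 = (z.re : ℝ) ^ 2 + d * (z.im : ℝ) ^ 2 := by
  rw [Complex.sq_norm, Complex.normSq_apply]
  simp only [toC, Zsqrtd.lift_apply_apply]
  have h : Real.sqrt d * Real.sqrt d = d := Real.mul_self_sqrt (Nat.cast_nonneg d)
  simp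
  linear_combination (z.im : ℝ) ^ 2 * h

lemma toC_inj (d : ℕ) (hd : 0 < d) : Function.Injective (toC d) := by
  apply Zsqrtd.lift_injective
  intro n hn
  have : (0 : ℤ) ≤ n * n := mul_self_nonneg n
  omega

/-- The usual absolute value on `ℤ[√-d]`. -/
noncomputable def quadAbs (d : ℕ) (hd : 0 < d) : AbsoluteValue (ℤ√(-(d : ℤ))) ℝ :=
  (NormedField.toAbsoluteValue ℂ).comp (toC_inj d hd)

lemma quadAbs_apply (d : ℕ) (hd : 0 < d) (z : ℤ√(-(d : ℤ))) : quadAbs d hd z = ‖toC d z‖ := rfl

/-- `{z | m ∣ im z + s re z}`. -/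
def lat (d : ℕ) (m s : ℤ) : AddSubgroup (ℤ√(-(d : ℤ))) where
  carrier := {z | m ∣ z.im + s * z.re}
  zero_mem' := by simp
  add_mem' := by
    intro y z hy hz
    simp only [Set.mem_ofPred_eq, Zsqrtd.im_add, Zsqrtd.re_add] at *
    have e : y.im + z.im + s * (y.re + z.re) = (y.im + s * y.re) + (z.im + s * z.re) := by ring
    rw [e]
    exact dvd_add hy hz
  neg_mem' := by
    intro y hy
    simp only [Set.mem_ofPred_eq, Zsqrtd.im_neg, Zsqrtd.re_neg] at *
    have e : -y.im + s * -y.re = -(y.im + s * y.re) := by ring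
    rw [e]
    exact (dvd_neg).mpr hy

lemma mem_lat (d : ℕ) (m s : ℤ) (z : ℤ√(-(d : ℤ))) : z ∈ lat d m s ↔ m ∣ z.im + s * z.re :=
  Iff.rfl

theorem fails_of_sqrt {n : ℕ} (hn : 3 ≤ n) {K : Type u} [Field K] [CharZero K] (d : ℕ)
    (hd : 0 < d) (r : K) (hr : r ^ 2 = -(d : K)) : ReductionFails.{u, v} n K := by
  have hd' : (1 : ℤ) ≤ d := by exact_mod_cast hd
  let φ : ℤ√(-(d : ℤ)) →+* K := Zsqrtd.lift ⟨r, by push_cast; rw [← hr]; ring⟩
  have hφ : Function.Injective φ := by
    apply Zsqrtd.lift_injective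
    intro n hn
    have : (0 : ℤ) ≤ n * n := mul_self_nonneg n
    omega
  have hI : ∀ z ∈ Ideal.span {(((12 * d + 2 : ℤ)) : ℤ√(-(d : ℤ)))},
      (12 * d + 2 : ℤ) ∣ z.re ∧ (12 * d + 2 : ℤ) ∣ z.im := by
    intro z hz
    rw [Ideal.mem_span_singleton, Zsqrtd.intCast_dvd] at hz
    exact hz
  have h62 : (6 * d + 1 : ℤ) ∣ 12 * d + 2 := ⟨2, by ring⟩
  have hbig : ∀ u : ℤ√(-(d : ℤ)), (6 * (d : ℤ) + 1 ∣ u.im - 2 * u.re ∨
      6 * (d : ℤ) + 1 ∣ u.im + 2 * u.re) → u ≠ 0 → 2 ≤ quadAbs d hd u := by
    intro u hu hu0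
    have h1 := norm_bound d u.re u.im hd' hu (fun h => hu0 (Zsqrtd.ext h.1 h.2))
    have h2 : (4 : ℝ) ≤ (u.re : ℝ) ^ 2 + d * (u.im : ℝ) ^ 2 := by exact_mod_cast h1
    rw [← toC_norm] at h2
    rw [quadAbs_apply]
    nlinarith [norm_nonneg (toC d u)]
  refine reduction_fails hn φ hφ (quadAbs d hd) ?_
    (lat d (12 * d + 2) (-2)) (lat d (6 * d + 1) 2)
    (Ideal.span {(((12 * d + 2 : ℤ)) : ℤ√(-(d : ℤ)))}) ?_ ?_ ?_ ?_ ⟨1, 2⟩
    ⟨3 * (12 * d + 1), -(6 * (12 * d + 1))⟩ (((12 * d + 2 : ℤ)) : ℤ√(-(d : ℤ)))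
    ⟨0, 6 * d + 1⟩ ?_ ?_ ?_ ?_ ?_ ?_ ?_
  · rw [quadAbs_apply, map_one, norm_one]
  · intro z hz
    obtain ⟨h1, h2⟩ := hI z hz
    exact dvd_add h2 (h1.mul_left _)
  · intro z hz
    obtain ⟨h1, h2⟩ := hI z hz
    exact dvd_add (h62.trans h2) ((h62.trans h1).mul_left _)
  · intro u hu hu0
    refine hbig u (Or.inl ?_) hu0
    rw [mem_lat] at hu
    have e : u.im - 2 * u.re = u.im + -2 * u.re := by ring
    rw [e]
    exact h62.trans hu
  · intro u hu hu0
    exact hbig u (Or.inr hu) hu0
  · rw [mem_lat]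
    norm_num
  · rw [mem_lat]
    exact ⟨0, by simp only; ring⟩
  · rw [mem_lat]
    exact ⟨1, by simp only; ring⟩
  · exact Ideal.subset_span rfl
  · intro h
    have := congrArg Zsqrtd.re h
    simp only [Zsqrtd.re_intCast, Zsqrtd.re_zero] at this
    omega
  · ext
    · simp [pow_two]
      ring
    · simp [pow_two]
      ring
  · intro h
    rw [mem_lat] at h
    obtain ⟨k, hk⟩ := h
    simp [pow_two] at hk
    have h6 : (6 * (d : ℤ) + 1) ≠ 0 := by omega
    have h7 : (1 + 4 * (d : ℤ)) * (1 + (12 * (d : ℤ) + 2) * (12 * (d : ℤ) + 2)) ^ 2 = -(2 * k) := by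
      apply mul_left_cancel₀ h6
      linear_combination -hk
    obtain ⟨m, hm⟩ : ∃ m : ℤ, m = 2 * (6 * (d : ℤ) + 1) ^ 2 := ⟨_, rfl⟩
    have h8 : (1 + 4 * (d : ℤ)) * (1 + (12 * (d : ℤ) + 2) * (12 * (d : ℤ) + 2)) ^ 2 =
        2 * ((2 * m ^ 2 + 2 * m) + 4 * d * (2 * m ^ 2 + 2 * m) + 2 * d) + 1 := by
      rw [hm]
      ring
    rw [h8] at h7
    omega

end QuadraticRing

section LocallyFiniteFields

/-- A field of positive characteristic which is algebraic over its prime subfield is locally
finite. -/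
theorem locallyFinite_of_isAlgebraic (K : Type u) [Field K] (hK : ¬ CharZero K)
    (h : Algebra.IsAlgebraic (⊥ : Subfield K) K) : LocallyFinite K := by
  obtain ⟨p, hp⟩ := CharP.exists K
  have hp0 : p ≠ 0 := by
    rintro rfl
    exact hK (CharP.charP_to_charZero K)
  haveI : Fact p.Prime := ⟨(CharP.char_is_prime_or_zero K p).resolve_right hp0⟩
  letI : Algebra (ZMod p) K := ZMod.algebra K p
  have hbot : Finite (⊥ : Subfield K) := by
    have h1 : ((⊥ : Subfield K) : Set K) ⊆ Set.range (algebraMap (ZMod p) K) := by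
      have : (⊥ : Subfield K) ≤ (algebraMap (ZMod p) K).fieldRange := bot_le
      intro x hx
      exact this hx
    exact (Set.finite_range _).subset h1
  intro S
  haveI : FiniteDimensional (⊥ : Subfield K) (IntermediateField.adjoin (⊥ : Subfield K)
      (S : Set K)) :=
    IntermediateField.finiteDimensional_adjoin fun x _ => (h.isAlgebraic x).isIntegral
  haveI : Finite (IntermediateField.adjoin (⊥ : Subfield K) (S : Set K)) :=
    Module.finite_of_finite (⊥ : Subfield K)
  have h2 : Subfield.closure (S : Set K) ≤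
      (IntermediateField.adjoin (⊥ : Subfield K) (S : Set K)).toSubfield := by
    rw [Subfield.closure_le]
    exact IntermediateField.subset_adjoin _ _
  have h3 : ((IntermediateField.adjoin (⊥ : Subfield K) (S : Set K)) : Set K).Finite :=
    Set.toFinite _
  exact h3.subset h2

end LocallyFiniteFields

/-- **The reduction of admissibility to Lie rank one fails in every type `A_l`, `l = n - 1 ≥ 2`,
over every field `K` which is not algebraic over its prime subfield; over every field of positive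
characteristic which is not locally finite; and over every field of characteristic zero in which
some negative integer `-d` is a square.** -/
theorem result (n : ℕ) (hn : 3 ≤ n) (K : Type u) [Field K]
    (hK : ¬ Algebra.IsAlgebraic (⊥ : Subfield K) K ∨ (¬ CharZero K ∧ ¬ LocallyFinite K) ∨
      (CharZero K ∧ ∃ (d : ℕ) (r : K), 0 < d ∧ r ^ 2 = -(d : K))) :
    ReductionFails.{u, v} n K := by
  have h1 : ¬ Algebra.IsAlgebraic (⊥ : Subfield K) K → ReductionFails.{u, v} n K := by
    intro h
    rw [Algebra.isAlgebraic_def] at h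
    push Not at h
    obtain ⟨t, ht⟩ := h
    exact fails_of_transcendental hn t ht
  rcases hK with h | ⟨h2, h3⟩ | ⟨h2, d, r, hd, hr⟩
  · exact h1 h
  · exact h1 fun h => h3 (locallyFinite_of_isAlgebraic K h2 h)
  · exact fails_of_sqrt hn d hd r hr

end Pool.Agent.Results.MP_23ee20_al.NonAlgebraicFields
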